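import Pool.Agent.H75.PRL.S1
import Pool.Agent.H75.PRL.S3
import Pool.Agent.H33.AVS.NGH

/-!
# The Poonen-Rains law: uniqueness of the types
-/

set_option autoImplicit false

namespace Pool.PRL

open Polynomial Matrix Pool.AVR Pool.AVS Pool.RZ

namespace TYQ

theorem gr0_symm {K : Type} [Field K] (a b c : K) (h : K[X]) :
    (gr0 a b c h)ᵀ = gr0 a b c h := by
  ext i j
  rw [Matrix.transpose_apply]
  show tau a b c (X ^ (j : ℕ) * X ^ (i : ℕ) * h) = tau a b c (X ^ (i : ℕ) * X ^ (j : ℕ) * h)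
  rw [mul_comm (X ^ (j : ℕ)) (X ^ (i : ℕ))]

theorem add_eq_zero : ∀ x y : Ty, x + y = 0 → x = y := by decide

theorem ty_cases : ∀ z : Ty, z ≠ 0 → z = (0, 1) ∨ z = (1, 0) ∨ z = (1, 1) := by decide

variable {F : Type} [Field F]

/-- The form of a class of square norm. -/
theorem det_form (f : F[X] × F[X] × F[X]) (h : (RatFunc F)[X]) (hc : IsCoprime h (cubK f))
    (hN : IsSquare (Algebra.norm (RatFunc F) (AdjoinRoot.mk (cubK f) h))) :
    ∃ ε : RatFunc F, ε ≠ 0 ∧ (g0 f h).det = -ε ^ 2 := by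
  obtain ⟨r, hr⟩ := hN
  have hu : IsUnit (AdjoinRoot.mk (cubK f) h) := by
    obtain ⟨a, b, hab⟩ := hc
    refine IsUnit.of_mul_eq_one (AdjoinRoot.mk (cubK f) a) ?_
    rw [← map_mul, ← map_one (AdjoinRoot.mk (cubK f)), AdjoinRoot.mk_eq_mk]
    exact ⟨-b, by linear_combination hab⟩
  have hn : Algebra.norm (RatFunc F) (AdjoinRoot.mk (cubK f) h) ≠ 0 :=
    (hu.map (Algebra.norm (RatFunc F))).ne_zero
  refine ⟨r, ?_, ?_⟩
  · rintro rfl
    rw [mul_zero] at hr
    exact hn hr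
  · have h1 : (g0 f h).det = -Algebra.norm (RatFunc F) (AdjoinRoot.mk (cubK f) h) :=
      NGH.det_gr0 (kf f).1 (kf f).2.1 (kf f).2.2 h
    rw [h1, hr]
    ring

theorem iso_one {L : Type} [Field L] (f : F[X] × F[X] × F[X]) (ι : RatFunc F →+* L) :
    IsoM ((g0 f 1).map ι) := by
  refine ⟨![1, 0, 0], ?_, ?_⟩
  · intro h
    have := congrFun h 0
    simp at this
  · have h00 : g0 f 1 0 0 = 0 := by
      show tau (kf f).1 (kf f).2.1 (kf f).2.2 (X ^ ((0 : Fin 3) : ℕ) * X ^ ((0 : Fin 3) : ℕ) * 1) = 0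
      have h1 : (X ^ ((0 : Fin 3) : ℕ) * X ^ ((0 : Fin 3) : ℕ) * 1 : (RatFunc F)[X]) = 1 := by simp
      rw [h1, COR.tau_of_lt]
      · rw [coeff_one]
        simp
      · rw [degree_one]
        norm_num
    unfold bil
    simp [dotProduct, Matrix.mulVec, Fin.sum_univ_three, h00]

end TYQ

open TYQ in
/-- The type is unique. -/
theorem tyq_thm (hEXI : EXIStmt) (hTYM : TYMStmt) (hLCC : LCCStmt) (hLBB : LBBStmt)
    (hUSE : USEStmt) (hOAL : OALStmt) (hEIL : EILStmt) (hCPP : CPPStmt) : TYQStmt := by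
  intro F _ _ h2 P f hPm hP h hco hN x y hx hy
  by_contra hne
  obtain ⟨hmul, hcls, hUS, -⟩ := hTYM F P f hPm hP
  have hT : T12P P f := by
    obtain ⟨e, β, γ, s, p, hS, -⟩ := hx
    exact ⟨e, β, γ, hS⟩
  -- the class of one
  have hone : Typ P f (x + y) 1 := by
    obtain ⟨a, b, hab⟩ := hco
    refine hcls (x + y) (h * h) 1 a (hmul x y h h hx hy) ⟨h, b, by linear_combination hab⟩ ?_
    exact ⟨b * (1 + a * h), by linear_combination (-(1 + a * h)) * hab⟩
  have hz : x + y ≠ 0 := fun h0 => hne (add_eq_zero x y h0)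
  -- the completion
  let v : IsDedekindDomain.HeightOneSpectrum F[X] :=
    { asIdeal := Ideal.span {P}
      isPrime := (Ideal.span_singleton_prime hP.ne_zero).2 hP.prime
      ne_bot := by
        rw [Ne, Ideal.span_singleton_eq_bot]
        exact hP.ne_zero }
  have hcomp := hCPP F h2 P hPm hP v rfl
  have hanis : ∀ h' : (RatFunc F)[X], IsCoprime h' (cubK f) →
      IsSquare (Algebra.norm (RatFunc F) (AdjoinRoot.mk (cubK f) h')) → Typ P f (1, 1) h' →
      ¬ IsoM ((g0 f h').map (algebraMap (RatFunc F) (v.adicCompletion (RatFunc F)))) := by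
    intro h' hc' hN' hT'
    exact hOAL F P hP _ _ _ hcomp (g0 f h') (gr0_symm _ _ _ _)
      (hLCC F h2 P f hPm hP h' hc' hN' hT')
  have hiso : ∀ h' : (RatFunc F)[X], IsCoprime h' (cubK f) →
      IsSquare (Algebra.norm (RatFunc F) (AdjoinRoot.mk (cubK f) h')) → EL (IP P) (g0 f h') →
      IsoM ((g0 f h').map (algebraMap (RatFunc F) (v.adicCompletion (RatFunc F)))) := by
    intro h' hc' hN' hE
    obtain ⟨ε, hε, hd⟩ := det_form f h' hc' hN'
    exact hEIL F (IP P) _ _ _ _ hcomp (g0 f h') ε (gr0_symm _ _ _ _) hε hd hE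
  rcases ty_cases _ hz with h0 | h0 | h0
  · -- the product with a class of type `(1, 0)`
    obtain ⟨h', hc', hN', hT'⟩ := hEXI F h2 P f hPm hP hT (1, 0) (Or.inr rfl)
    have h1 : Typ P f (1, 1) h' := by
      have := hmul _ _ _ _ hone hT'
      rw [h0, one_mul] at this
      exact this
    obtain ⟨g, hg, hg1, -⟩ := hLBB F h2 P f hPm hP h' hc' hN' hT' P dvd_rfl (by
      intro hd
      rw [pow_two] at hd
      exact hP.not_isUnit (isUnit_of_dvd_one
        ((mul_dvd_mul_iff_left hP.ne_zero).1 (by rwa [mul_one]))))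
    exact hanis h' hc' hN' h1 (hiso h' hc' hN' ⟨g, hg, hg1⟩)
  · -- the product with a nontrivial unit class
    obtain ⟨h', hc', hN', hT'⟩ := hEXI F h2 P f hPm hP hT (0, 1) (Or.inl rfl)
    have h1 : Typ P f (1, 1) h' := by
      have := hmul _ _ _ _ hone hT'
      rw [h0, one_mul] at this
      exact this
    obtain ⟨g, hg, hg1, -⟩ := hUSE F P f h' hP ((hUS hT h').2 (Or.inr hT'))
    exact hanis h' hc' hN' h1 (hiso h' hc' hN' ⟨g, hg, hg1⟩)
  · rw [h0] at hone
    refine hanis 1 isCoprime_one_left ?_ hone (iso_one f _)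
    rw [map_one, map_one]
    exact ⟨1, by ring⟩

end Pool.PRL
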