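import Pool.Agent.H40.PRL.TWP
import Pool.Agent.H59.RZ.DN

/-!
# The Poonen-Rains law: lower bound for the number of curves of the family
-/

set_option autoImplicit false

namespace Pool.PRL

open Polynomial Matrix Pool.AVR Pool.AVS Pool.RZ

namespace DNP

open Pool.AVR.H10DNF

variable {F : Type} [Field F]

/-- The triples of type `T12` modulo `P`. -/
def TP (P : F[X]) : Set (AdjoinRoot P × AdjoinRoot P × AdjoinRoot P) := {t | T12R t}

theorem coprime_of_ne {P Q : F[X]} (hPm : P.Monic) (hP : Irreducible P) (hQm : Q.Monic)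
    (hQ : Irreducible Q) (hne : P ≠ Q) : IsCoprime P Q := by
  rw [hP.coprime_iff_not_dvd]
  intro hd
  exact hne (eq_of_monic_of_associated hPm hQm (hP.associated_of_dvd hQ hd))

theorem crt1 (T : Finset F[X]) (hT : ∀ P ∈ T, P.Monic ∧ Irreducible P)
    (t : ∀ P : T, AdjoinRoot P.1) : ∃ f : F[X], ∀ P : T, AdjoinRoot.mk P.1 f = t P := by
  choose g hg using fun P : T => AdjoinRoot.mk_surjective (g := P.1) (t P)
  have hI : Pairwise (Function.onFun IsCoprime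
      (fun P : T => Ideal.span {P.1} : T → Ideal F[X])) := by
    intro P Q hne
    change IsCoprime (Ideal.span {P.1}) (Ideal.span {Q.1})
    rw [Ideal.isCoprime_span_singleton_iff]
    exact coprime_of_ne (hT _ P.2).1 (hT _ P.2).2 (hT _ Q.2).1 (hT _ Q.2).2
      (fun h => hne (Subtype.ext h))
  obtain ⟨f, hf⟩ := Ideal.exists_forall_sub_mem_ideal hI g
  refine ⟨f, fun P => ?_⟩
  rw [← hg P, AdjoinRoot.mk_eq_mk]
  exact Ideal.mem_span_singleton.mp (hf P)

/-- The modulus. -/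
noncomputable def MT (T S : Finset F[X]) : F[X] := (∏ P ∈ T, P) * ∏ P ∈ S, P ^ 2

theorem MT_monic (T S : Finset F[X]) (hT : ∀ P ∈ T, P.Monic ∧ Irreducible P)
    (hS : ∀ P ∈ S, P.Monic ∧ Irreducible P) : (MT T S).Monic :=
  (monic_prod_of_monic _ _ (fun P hP => (hT P hP).1)).mul
    (monic_prod_of_monic _ _ (fun P hP => (hS P hP).1.pow 2))

theorem MT_deg (T S : Finset F[X]) (hT : ∀ P ∈ T, P.Monic ∧ Irreducible P)
    (hS : ∀ P ∈ S, P.Monic ∧ Irreducible P) :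
    (MT T S).natDegree = ∑ P ∈ T, P.natDegree + ∑ P ∈ S, (P ^ 2).natDegree := by
  unfold MT
  rw [Monic.natDegree_mul (monic_prod_of_monic _ _ (fun P hP => (hT P hP).1))
    (monic_prod_of_monic _ _ (fun P hP => (hS P hP).1.pow 2)),
    natDegree_prod_of_monic _ _ (fun P hP => (hT P hP).1),
    natDegree_prod_of_monic _ _ (fun P hP => (hS P hP).1.pow 2)]

/-- The good triples modulo the modulus. -/
def WT (T S : Finset F[X]) (M : F[X]) : Set (AdjoinRoot M × AdjoinRoot M × AdjoinRoot M) :=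
  {w | ∀ f : F[X] × F[X] × F[X], AdjoinRoot.mk M f.1 = w.1 →
    AdjoinRoot.mk M f.2.1 = w.2.1 → AdjoinRoot.mk M f.2.2 = w.2.2 →
    (∀ P ∈ S, disc (AdjoinRoot.mk (P ^ 2) f.1) (AdjoinRoot.mk (P ^ 2) f.2.1)
      (AdjoinRoot.mk (P ^ 2) f.2.2) ≠ 0) ∧
    ∀ P ∈ T, T12R (AdjoinRoot.mk P f.1, AdjoinRoot.mk P f.2.1, AdjoinRoot.mk P f.2.2)}

/-- Gluing two residues. -/
theorem glue {N N' : F[X]} (h : IsCoprime N N') (f g : F[X]) :
    ∃ u : F[X], N ∣ u - f ∧ N' ∣ u - g := by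
  obtain ⟨a, b, hab⟩ := h
  refine ⟨f * (b * N') + g * (a * N), ⟨(g - f) * a, ?_⟩, ⟨(f - g) * b, ?_⟩⟩
  · linear_combination f * hab
  · linear_combination g * hab

theorem WT_card [Finite F] (T S : Finset F[X]) (hT : ∀ P ∈ T, P.Monic ∧ Irreducible P)
    (hS : ∀ P ∈ S, P.Monic ∧ Irreducible P ∧ P ∉ T) :
    (∏ P ∈ S, (GP P).ncard) * (∏ P ∈ T, (TP P).ncard) ≤ (WT T S (MT T S)).ncard := by
  classical
  have hS' : ∀ P ∈ S, P.Monic ∧ Irreducible P := fun P hP => ⟨(hS P hP).1, (hS P hP).2.1⟩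
  set N₁ : F[X] := ∏ P ∈ T, P with hN₁
  set N₂ : F[X] := ∏ P ∈ S, P ^ 2 with hN₂
  set M : F[X] := MT T S with hMdef
  have hMN : M = N₁ * N₂ := rfl
  have hM : M.Monic := MT_monic T S hT hS'
  have hdT : ∀ P ∈ T, P ∣ N₁ := fun P hP => Finset.dvd_prod_of_mem (fun P => P) hP
  have hdS : ∀ P ∈ S, P ^ 2 ∣ N₂ := fun P hP => Finset.dvd_prod_of_mem _ hP
  have h1M : N₁ ∣ M := ⟨N₂, hMN⟩
  have h2M : N₂ ∣ M := Dvd.intro_left _ hMN.symm
  have hcop : IsCoprime N₁ N₂ := by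
    refine IsCoprime.prod_left fun P hP => IsCoprime.prod_right fun Q hQ => ?_
    refine IsCoprime.pow_right ?_
    refine coprime_of_ne (hT P hP).1 (hT P hP).2 (hS Q hQ).1 (hS Q hQ).2.1 ?_
    rintro rfl
    exact (hS P hQ).2.2 hP
  have hfin : Finite (AdjoinRoot M) := adj_finite hM
  have hredS : ∀ P ∈ S, ∀ u v : F[X], N₂ ∣ u - v →
      AdjoinRoot.mk (P ^ 2) u = AdjoinRoot.mk (P ^ 2) v := by
    intro P hP u v h
    rw [AdjoinRoot.mk_eq_mk]
    exact (hdS P hP).trans h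
  have hredT : ∀ P ∈ T, ∀ u v : F[X], N₁ ∣ u - v → AdjoinRoot.mk P u = AdjoinRoot.mk P v := by
    intro P hP u v h
    rw [AdjoinRoot.mk_eq_mk]
    exact (hdT P hP).trans h
  have hlift : ∀ t : (∀ P : S, GP P.1) × (∀ P : T, TP P.1), ∃ f : F[X] × F[X] × F[X],
      (∀ P : S, (AdjoinRoot.mk (P.1 ^ 2) f.1, AdjoinRoot.mk (P.1 ^ 2) f.2.1,
        AdjoinRoot.mk (P.1 ^ 2) f.2.2) = (t.1 P).1) ∧
      ∀ P : T, (AdjoinRoot.mk P.1 f.1, AdjoinRoot.mk P.1 f.2.1, AdjoinRoot.mk P.1 f.2.2) =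
        (t.2 P).1 := by
    rintro ⟨s, t⟩
    obtain ⟨f1, h1⟩ := crt S hS' (fun P => (s P).1.1)
    obtain ⟨f2, h2⟩ := crt S hS' (fun P => (s P).1.2.1)
    obtain ⟨f3, h3⟩ := crt S hS' (fun P => (s P).1.2.2)
    obtain ⟨g1, k1⟩ := crt1 T hT (fun P => (t P).1.1)
    obtain ⟨g2, k2⟩ := crt1 T hT (fun P => (t P).1.2.1)
    obtain ⟨g3, k3⟩ := crt1 T hT (fun P => (t P).1.2.2)
    obtain ⟨u1, a1, b1⟩ := glue hcop g1 f1
    obtain ⟨u2, a2, b2⟩ := glue hcop g2 f2
    obtain ⟨u3, a3, b3⟩ := glue hcop g3 f3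
    refine ⟨(u1, u2, u3), fun P => ?_, fun P => ?_⟩
    · simp only [hredS P.1 P.2 _ _ b1, hredS P.1 P.2 _ _ b2, hredS P.1 P.2 _ _ b3, h1 P, h2 P,
        h3 P]
    · simp only [hredT P.1 P.2 _ _ a1, hredT P.1 P.2 _ _ a2, hredT P.1 P.2 _ _ a3, k1 P, k2 P,
        k3 P]
  choose f hfS hfT using hlift
  have hMS : ∀ P ∈ S, ∀ u v : F[X], AdjoinRoot.mk M u = AdjoinRoot.mk M v →
      AdjoinRoot.mk (P ^ 2) u = AdjoinRoot.mk (P ^ 2) v := by
    intro P hP u v h
    rw [AdjoinRoot.mk_eq_mk] at h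
    exact hredS P hP u v (h2M.trans h)
  have hMT : ∀ P ∈ T, ∀ u v : F[X], AdjoinRoot.mk M u = AdjoinRoot.mk M v →
      AdjoinRoot.mk P u = AdjoinRoot.mk P v := by
    intro P hP u v h
    rw [AdjoinRoot.mk_eq_mk] at h
    exact hredT P hP u v (h1M.trans h)
  let Φ : ((∀ P : S, GP P.1) × (∀ P : T, TP P.1)) → WT T S M := fun t =>
    ⟨(AdjoinRoot.mk M (f t).1, AdjoinRoot.mk M (f t).2.1, AdjoinRoot.mk M (f t).2.2), by
      intro g h1 h2 h3
      refine ⟨?_, ?_⟩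
      · intro P hP
        rw [hMS P hP _ _ h1, hMS P hP _ _ h2, hMS P hP _ _ h3]
        have h := hfS t ⟨P, hP⟩
        have h4 := (t.1 ⟨P, hP⟩).2
        rw [← h] at h4
        exact h4
      · intro P hP
        rw [hMT P hP _ _ h1, hMT P hP _ _ h2, hMT P hP _ _ h3]
        have h := hfT t ⟨P, hP⟩
        have h4 := (t.2 ⟨P, hP⟩).2
        rw [← h] at h4
        exact h4⟩
  have hΦ : Function.Injective Φ := by
    intro t t' h
    have h0 := congrArg Subtype.val h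
    simp only [Φ, Prod.mk.injEq] at h0
    have e1 : t.1 = t'.1 := by
      funext P
      apply Subtype.ext
      rw [← hfS t P, ← hfS t' P, hMS P.1 P.2 _ _ h0.1, hMS P.1 P.2 _ _ h0.2.1,
        hMS P.1 P.2 _ _ h0.2.2]
    have e2 : t.2 = t'.2 := by
      funext P
      apply Subtype.ext
      rw [← hfT t P, ← hfT t' P, hMT P.1 P.2 _ _ h0.1, hMT P.1 P.2 _ _ h0.2.1,
        hMT P.1 P.2 _ _ h0.2.2]
    exact Prod.ext e1 e2
  have h1 := Nat.card_le_card_of_injective Φ hΦ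
  rw [Nat.card_prod, Nat.card_pi, Nat.card_pi] at h1
  calc (∏ P ∈ S, (GP P).ncard) * (∏ P ∈ T, (TP P).ncard) =
        (∏ P : S, Nat.card (GP P.1)) * ∏ P : T, Nat.card (TP P.1) := by
        rw [← Finset.prod_coe_sort S, ← Finset.prod_coe_sort T]
        rfl
    _ ≤ Nat.card (WT T S M) := h1
    _ = (WT T S M).ncard := rfl

end DNP

open DNP Pool.AVR.H10DNF Pool.RZ.DN in
theorem dnp_thm (hEQF : Pool.AVR.EQFStmt) (hTAI : Pool.AVR.TAIStmt) (hTA5 : Pool.AVR.TA5Stmt)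
    (hTOP : Pool.AVR.TOPStmt) (hCBP : CBPStmt) : DNPStmt := by
  classical
  intro F _ _ h2 T hTE ε hε
  have hTT : TAIc F := by
    by_cases h3 : (3 : F) = 0
    · exact hTAI F h3
    · exact hTA5 F h2 h3
  obtain ⟨D, N₀, hD⟩ := hTT ε hε
  have hT : ∀ P ∈ T, P.Monic ∧ Irreducible P := fun P hP => ⟨(hTE P hP).1, (hTE P hP).2.1⟩
  refine ⟨D, fun S hS hSD => ?_⟩
  have hS' : ∀ P ∈ S, P.Monic ∧ Irreducible P := fun P hP => ⟨(hS P hP).1, (hS P hP).2.1⟩
  set M : F[X] := MT T S with hMdef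
  have hM : M.Monic := MT_monic T S hT hS'
  have hFmF : ∀ n, (FmT F n T).Finite := fun n =>
    (Fam_finite n).subset ((Set.sep_subset _ _).trans (Set.sep_subset _ _))
  refine ⟨max N₀ (M.natDegree + 1), fun n hn => ⟨hFmF n, ?_⟩⟩
  have hnN : N₀ ≤ n := (le_max_left _ _).trans hn
  have hnM : M.natDegree + 1 ≤ n := (le_max_right _ _).trans hn
  set q : ℝ := (Nat.card F : ℝ) with hq
  have hq0 : 0 < q := by rw [hq]; exact_mod_cast Nat.card_pos
  set A : Set (F[X] × F[X] × F[X]) := {f ∈ Fam F n | (AdjoinRoot.mk M f.1, AdjoinRoot.mk M f.2.1,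
    AdjoinRoot.mk M f.2.2) ∈ WT T S M ∧
        (top (2 * n) f.1, top (4 * n) f.2.1, top (6 * n) f.2.2) ∈ V2 F} with hA
  set B : Set (F[X] × F[X] × F[X]) := {f ∈ Fam F n | ∃ P : F[X], P.Monic ∧ Irreducible P ∧
    D < P.natDegree ∧ P ^ 2 ∣ disc f.1 f.2.1 f.2.2} with hB
  have hcount := hEQF F n M hM.ne_zero (by omega) (by omega) (WT T S M) (V2 F)
  rw [← hA] at hcount
  have hBc : (B.ncard : ℝ) ≤ ε * q ^ (12 * n + 3) := hD n hnN
  have hAfin : A.Finite := (Fam_finite n).subset (Set.sep_subset _ _)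
  have hBfin : B.Finite := (Fam_finite n).subset (Set.sep_subset _ _)
  have hsub : A ⊆ FmT F n T ∪ B := by
    rintro f ⟨hf, hfW, hfV⟩
    by_cases hfB : f ∈ B
    · exact Or.inr hfB
    obtain ⟨hW1, hW2⟩ := hfW f rfl rfl rfl
    have hW3 : ∀ P ∈ T, T12P P f := fun P hP =>
      ((hCBP F h2 P (hT P hP).1 (hT P hP).2).1 f).2 (hW2 P hP)
    have hNR : NR (top3 n f) := hfV
    have hdne := disc_NR h2 hNR
    have hcoef : (disc f.1 f.2.1 f.2.2).coeff (12 * n) =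
        disc (top3 n f).1 (top3 n f).2.1 (top3 n f).2.2 := by
      have h := (hTOP F n 0 (by omega)).2 f hf
      have h' := congrArg (TrivSqZeroExt.fstHom F F F) h
      have hm := disc_map ((TrivSqZeroExt.fstHom F F F) : DualNumber F →+* F)
        (top (2 * n) f.1) (top (4 * n) f.2.1) (top (6 * n) f.2.2)
      exact h'.trans hm
    have hdeg : 12 * n ≤ (disc f.1 f.2.1 f.2.2).natDegree := by
      apply le_natDegree_of_ne_zero
      rw [hcoef]
      exact hdne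
    have hne : disc f.1 f.2.1 f.2.2 ≠ 0 := by
      intro h0
      apply hdne
      rw [← hcoef, h0, coeff_zero]
    refine Or.inl ⟨⟨hf, ?_, by omega⟩, hW3, hNR⟩
    rw [squarefree_iff_irreducible_sq_not_dvd_of_ne_zero hne]
    intro P hP hdvd
    set Q := normalize P with hQ
    have hass : Associated Q P := normalize_associated P
    have hQm : Q.Monic := monic_normalize hP.ne_zero
    have hQi : Irreducible Q := hass.symm.irreducible hP
    have hQd : Q ^ 2 ∣ disc f.1 f.2.1 f.2.2 := by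
      refine dvd_trans ?_ hdvd
      rw [sq]
      exact mul_dvd_mul hass.dvd hass.dvd
    by_cases hdeg : Q.natDegree ≤ D
    · by_cases hQT : Q ∈ T
      · exact TWP.disc_T h2 Q hQm hQi f (hW3 Q hQT) ((dvd_pow_self Q two_ne_zero).trans hQd)
      have hQS := hSD Q hQm hQi hdeg hQT
      have := hW1 Q hQS
      apply this
      rw [← disc_map, AdjoinRoot.mk_eq_zero]
      exact hQd
    · exact hfB ⟨hf, Q, hQm, hQi, by omega, hQd⟩
  have hle : (A.ncard : ℝ) ≤ (FmT F n T).ncard + B.ncard := by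
    have h1 := (Set.ncard_le_ncard hsub ((hFmF n).union hBfin)).trans (Set.ncard_union_le _ _)
    exact_mod_cast h1
  set U : ℝ := ((∏ P ∈ T, (TP P).ncard : ℕ) : ℝ) with hU
  set R : ℝ := (({t : F × F × F | NR t}.ncard : ℕ) : ℝ) with hR
  set G : ℝ := ((∏ P ∈ S, (GP P).ncard : ℕ) : ℝ) with hG
  have hWc : G * U ≤ ((WT T S M).ncard : ℝ) := by
    rw [hG, hU]
    exact_mod_cast WT_card T S hT hS
  have hVc : R * q ^ 3 ≤ ((V2 F).ncard : ℝ) := by
    rw [hR, hq]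
    exact_mod_cast V2_card (F := F)
  have hcR : (A.ncard : ℝ) * (q ^ (3 * M.natDegree) * q ^ 6) =
      q ^ (12 * n + 3) * ((WT T S M).ncard * (V2 F).ncard) := by
    rw [hq]
    exact_mod_cast hcount
  have hprod : ∏ P ∈ S, dens (AdjoinRoot (P ^ 2)) =
      G / q ^ (3 * ∑ P ∈ S, (P ^ 2).natDegree) := by
    have h1 : ∀ P ∈ S, dens (AdjoinRoot (P ^ 2)) =
        ((GP P).ncard : ℝ) / q ^ (3 * (P ^ 2).natDegree) := by
      intro P hP
      have : (Nat.card (AdjoinRoot (P ^ 2)) : ℝ) = q ^ (P ^ 2).natDegree := by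
        rw [adj_card ((hS P hP).1.pow 2), hq]
        push_cast
        rfl
      unfold dens
      rw [this, ← pow_mul, mul_comm (P ^ 2).natDegree 3]
      rfl
    rw [Finset.prod_congr rfl h1, Finset.prod_div_distrib, Finset.prod_pow_eq_pow_sum,
      ← Finset.mul_sum, hG]
    push_cast
    rfl
  have hprodT : ∏ P ∈ T, (q ^ P.natDegree - 1) / (2 * q ^ P.natDegree) =
      U / q ^ (3 * ∑ P ∈ T, P.natDegree) := by
    have h1 : ∀ P ∈ T, (q ^ P.natDegree - 1) / (2 * q ^ P.natDegree) =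
        ((TP P).ncard : ℝ) / q ^ (3 * P.natDegree) := by
      intro P hP
      have h3 := (hCBP F h2 P (hT P hP).1 (hT P hP).2).2.2.1
      have h4 : 2 * ((TP P).ncard : ℝ) = q ^ (3 * P.natDegree) - q ^ (2 * P.natDegree) := h3
      have hqd : 0 < q ^ P.natDegree := by positivity
      have e3 : q ^ (3 * P.natDegree) = (q ^ P.natDegree) ^ 3 := by
        rw [← pow_mul]
        congr 1
        ring
      have e2 : q ^ (2 * P.natDegree) = (q ^ P.natDegree) ^ 2 := by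
        rw [← pow_mul]
        congr 1
        ring
      rw [e3, e2] at h4
      rw [e3, div_eq_div_iff (by positivity) (by positivity)]
      linear_combination (-(q ^ P.natDegree)) * h4
    rw [Finset.prod_congr rfl h1, Finset.prod_div_distrib, Finset.prod_pow_eq_pow_sum,
      ← Finset.mul_sum, hU]
    push_cast
    rfl
  have hdd : ddT F T S = R / q ^ 3 * (U / q ^ (3 * ∑ P ∈ T, P.natDegree)) *
      (G / q ^ (3 * ∑ P ∈ S, (P ^ 2).natDegree)) := by
    unfold ddT d3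
    rw [hprod, ← hq, hprodT]
  have hMd : q ^ (3 * M.natDegree) = q ^ (3 * ∑ P ∈ T, P.natDegree) *
      q ^ (3 * ∑ P ∈ S, (P ^ 2).natDegree) := by
    rw [hMdef, MT_deg T S hT hS', ← pow_add]
    congr 1
    ring
  have hR0 : 0 ≤ R := by rw [hR]; positivity
  have hU0 : 0 ≤ U := by rw [hU]; positivity
  have hG0 : 0 ≤ G := by rw [hG]; positivity
  have hAlow : q ^ (12 * n + 3) * ddT F T S ≤ A.ncard := by
    have hden : 0 < q ^ (3 * M.natDegree) * q ^ 6 := by positivity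
    have hAeq : (A.ncard : ℝ) = q ^ (12 * n + 3) * ((WT T S M).ncard * (V2 F).ncard) /
        (q ^ (3 * M.natDegree) * q ^ 6) := by
      rw [eq_div_iff hden.ne', hcR]
    rw [hAeq, le_div_iff₀ hden, hdd, hMd]
    have h3 : q ^ (12 * n + 3) * (R / q ^ 3 * (U / q ^ (3 * ∑ P ∈ T, P.natDegree)) *
        (G / q ^ (3 * ∑ P ∈ S, (P ^ 2).natDegree))) *
        (q ^ (3 * ∑ P ∈ T, P.natDegree) * q ^ (3 * ∑ P ∈ S, (P ^ 2).natDegree) * q ^ 6) =
        q ^ (12 * n + 3) * ((G * U) * (R * q ^ 3)) := by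
      field_simp
    rw [h3]
    gcongr
  have : q ^ (12 * n + 3) * (ddT F T S - ε) =
      q ^ (12 * n + 3) * ddT F T S - ε * q ^ (12 * n + 3) := by ring
  rw [this]
  linarith

end Pool.PRL
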