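import Pool.Agent.H75.PRL.S2
import Pool.Agent.H77.RZ.USE

/-!
# The Poonen-Rains law: the classes of points of a twist at the primes not dividing the twist
-/

set_option autoImplicit false

namespace Pool.PRL

open Polynomial Matrix Pool.AVR Pool.AVS Pool.RZ

/-- At a prime not dividing `d`, the class of a point of the twist is the class of a unit. -/
theorem lu1_thm (hSCD : SCDStmt) (hLAC : LACStmt) (hCYC : CYCStmt) (hNGH : NGHStmt)
    (hCHH : CHHStmt) : LU1Stmt := by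
  intro F _ _ h2 P hPm hP f d hdisc hPd L _ O ι hcomp h hL
  have hd0 : d ≠ 0 := by
    rintro rfl
    exact hPd (dvd_zero P)
  have hdK : rf d ≠ 0 := by
    rw [rf, Ne, FaithfulSMul.algebraMap_eq_zero_iff]
    exact hd0
  obtain ⟨-, hS, -⟩ := hSCD F d f hd0
  obtain ⟨-, -, hloc, hrep⟩ := hS h
  have h1 := (hloc L ι).2 hL
  obtain ⟨g, hg, hG, hM⟩ := hLAC F (IP P) (rf P) L O ι hcomp 1 (kf (tw d f)).1 (kf (tw d f)).2.1
    (kf (tw d f)).2.2 (scd d h) one_ne_zero
    (by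
      rw [one_pow, div_one]
      exact USE.IP_rf hP _)
    (by
      rw [one_pow, div_one]
      exact USE.IP_rf hP _)
    (by
      rw [one_pow, div_one]
      exact USE.IP_rf hP _) h1
  rw [one_pow, inv_one, one_smul] at hM
  have hR := hCHH (RatFunc F) _ _ _ (scd d h) _ _ g
    (hNGH (RatFunc F) (kf (tw d f)).1 (kf (tw d f)).2.1 (kf (tw d f)).2.2 (scd d h)).1
  have hR' : RepH (kf (tw d f)).1 (kf (tw d f)).2.1 (kf (tw d f)).2.2 (scd d h)
      (gᵀ * gr0 (kf (tw d f)).1 (kf (tw d f)).2.1 (kf (tw d f)).2.2 (scd d h) * g)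
      (rf d • ((rf d)⁻¹ •
        (gᵀ * gr1 (kf (tw d f)).1 (kf (tw d f)).2.1 (kf (tw d f)).2.2 (scd d h) * g))) := by
    rw [smul_inv_smul₀ hdK]
    exact hR
  have hR2 := (hrep _ _).1 hR'
  refine hCYC F h2 P hPm hP f hdisc h _ _ hR2 hG ?_
  intro i j
  rw [Matrix.smul_apply, smul_eq_mul]
  have hinv : (rf d)⁻¹ ∈ IP P := (USE.UI_rf hP hPd).2.2
  have h4 := hM i j
  rw [← hcomp.mem] at hinv h4 ⊢
  rw [map_mul]
  exact O.mul_mem _ _ hinv h4

end Pool.PRL
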