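import Pool.Agent.H75.PRL.S5
import Pool.Agent.H75.AVR.SFI
import Pool.Agent.H77.RZ.TWF

/-!
# The Poonen-Rains law: the family and its twists
-/

set_option autoImplicit false

namespace Pool.PRL

open Polynomial Matrix Pool.AVR Pool.AVS Pool.RZ

namespace TWP

variable {F : Type} [Field F]

/-! ### Products of primes -/

theorem pr_facts (T S : Finset F[X]) (hT : EvT T) (hS : S ⊆ T) :
    (pr S).Monic ∧ Even (pr S).natDegree ∧ (pr S).natDegree = ∑ P ∈ S, P.natDegree ∧
      (∀ P : F[X], Irreducible P → ¬ P ^ 2 ∣ pr S) ∧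
      ∀ P : F[X], P.Monic → Irreducible P → (P ∣ pr S ↔ P ∈ S) := by
  classical
  have hm : ∀ P ∈ S, P.Monic := fun P hP => (hT P (hS hP)).1
  have hi : ∀ P ∈ S, Irreducible P := fun P hP => (hT P (hS hP)).2.1
  have he : ∀ P ∈ S, Even P.natDegree := fun P hP => (hT P (hS hP)).2.2
  have hdeg : (pr S).natDegree = ∑ P ∈ S, P.natDegree :=
    natDegree_prod_of_monic S (fun P => P) hm
  have heq : ∀ P Q : F[X], P.Monic → Irreducible P → Q ∈ S → P ∣ Q → P = Q := by
    intro P Q hPm hP hQ hd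
    exact eq_of_monic_of_associated hPm (hm Q hQ) (hP.associated_of_dvd (hi Q hQ) hd)
  refine ⟨monic_prod_of_monic S (fun P => P) hm, ?_, hdeg, ?_, ?_⟩
  · rw [hdeg]
    clear hdeg hm hi hS heq
    induction S using Finset.induction_on with
    | empty => simp
    | insert P S hPS ih =>
      rw [Finset.sum_insert hPS]
      exact (he P (Finset.mem_insert_self P S)).add
        (ih fun Q hQ => he Q (Finset.mem_insert_of_mem hQ))
  · intro P hP hdvd
    have hsq : Squarefree (pr S) := by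
      refine Finset.squarefree_prod_of_pairwise_isCoprime ?_ fun Q hQ => (hi Q hQ).squarefree
      intro Q hQ R hR hne
      have hc : IsCoprime Q R := ((hi Q hQ).coprime_iff_not_dvd).2 fun hd =>
        hne (heq Q R (hm Q hQ) (hi Q hQ) hR hd)
      exact hc.isRelPrime
    rw [pow_two] at hdvd
    exact hP.not_isUnit (hsq P hdvd)
  · intro P hPm hP
    constructor
    · intro hd
      obtain ⟨Q, hQ, hPQ⟩ := (hP.prime.dvd_finsetProd_iff (fun P => P)).1 hd
      rw [heq P Q hPm hP hQ hPQ]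
      exact hQ
    · intro h
      exact Finset.dvd_prod_of_mem (fun P => P) h

/-! ### Cubics over a field -/

theorem t12_scale {k : Type} [Field k] {a b c d : k} (hd : d ≠ 0) (h : T12 (a, b, c)) :
    T12 (d * a, d ^ 2 * b, d ^ 3 * c) := by
  obtain ⟨e, β, γ, hr, ht⟩ := h
  simp only [Prod.mk.injEq] at ht
  obtain ⟨rfl, rfl, rfl⟩ := ht
  refine ⟨d * e, d * β, d ^ 2 * γ, ?_, ?_⟩
  · intro x hx
    refine hr (x / d) ?_
    have h1 : (x / d) ^ 2 + β * (x / d) + γ = (x ^ 2 + d * β * x + d ^ 2 * γ) / d ^ 2 := by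
      field_simp
    rw [h1, hx, zero_div]
  · refine Prod.ext ?_ (Prod.ext ?_ ?_)
    · show d * (β - e) = d * β - d * e
      ring
    · show d ^ 2 * (γ - e * β) = d ^ 2 * γ - d * e * (d * β)
      ring
    · show d ^ 3 * -(e * γ) = -(d * e * (d ^ 2 * γ))
      ring

theorem t12_zero {k : Type} [Field k] : ¬ T12 ((0 : k), (0 : k), (0 : k)) := by
  rintro ⟨e, β, γ, hr, ht⟩
  simp only [Prod.mk.injEq] at ht
  obtain ⟨h1, h2, h3⟩ := ht
  have hβ : β = e := by linear_combination -h1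
  rw [hβ] at h2
  have hγ : γ = e ^ 2 := by linear_combination -h2
  rw [hγ] at h3
  have h4 : e ^ 3 = 0 := by linear_combination h3
  have h5 : e = 0 := pow_eq_zero_iff (by norm_num) |>.1 h4
  refine hr 0 ?_
  rw [hγ, h5]
  ring

theorem t12_disc {k : Type} [Field k] (h2 : (2 : k) ≠ 0) {a b c : k} (h : T12 (a, b, c)) :
    disc a b c ≠ 0 := by
  obtain ⟨e, β, γ, hr, ht⟩ := h
  simp only [Prod.mk.injEq] at ht
  obtain ⟨rfl, rfl, rfl⟩ := ht
  have h1 : disc (β - e) (γ - e * β) (-(e * γ)) =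
      (β ^ 2 - 4 * γ) * (e ^ 2 + β * e + γ) ^ 2 := by
    unfold disc
    ring
  rw [h1]
  refine mul_ne_zero ?_ (pow_ne_zero 2 (hr e))
  intro h0
  refine hr (-β / 2) ?_
  have h3 : (-β / 2) ^ 2 + β * (-β / 2) + γ = -(β ^ 2 - 4 * γ) / 4 := by
    have h4 : (4 : k) ≠ 0 := by
      have : (4 : k) = 2 * 2 := by norm_num
      rw [this]
      exact mul_ne_zero h2 h2
    field_simp
    ring
  rw [h3, h0, neg_zero, zero_div]

/-! ### Reduction modulo a prime -/

section Red

variable (P : F[X]) [Fact (Irreducible P)]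

theorem t12P_iff (hPm : P.Monic) (f : F[X] × F[X] × F[X]) :
    T12P P f ↔ T12 (AdjoinRoot.mk P f.1, AdjoinRoot.mk P f.2.1, AdjoinRoot.mk P f.2.2) := by
  constructor
  · rintro ⟨e, β, γ, hr, h1, h2, h3, -⟩
    refine ⟨AdjoinRoot.mk P e, AdjoinRoot.mk P β, AdjoinRoot.mk P γ, ?_, ?_⟩
    · intro x hx
      obtain ⟨x, rfl⟩ := AdjoinRoot.mk_surjective x
      rw [← map_pow, ← map_mul, ← map_add, ← map_add, AdjoinRoot.mk_eq_zero] at hx
      exact hr x hx
    · rw [← AdjoinRoot.mk_eq_zero, map_sub, map_sub, sub_eq_zero] at h1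
      rw [← AdjoinRoot.mk_eq_zero, map_sub, map_sub, map_mul, sub_eq_zero] at h2
      rw [← AdjoinRoot.mk_eq_zero, map_add, map_mul] at h3
      exact Prod.ext h1 (Prod.ext h2 (eq_neg_of_add_eq_zero_left h3))
  · rintro ⟨e, β, γ, hr, ht⟩
    obtain ⟨e, rfl⟩ := AdjoinRoot.mk_surjective e
    obtain ⟨β, rfl⟩ := AdjoinRoot.mk_surjective β
    obtain ⟨γ, rfl⟩ := AdjoinRoot.mk_surjective γ
    have hmod : ∀ x : F[X], AdjoinRoot.mk P (x %ₘ P) = AdjoinRoot.mk P x := by
      intro x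
      rw [AdjoinRoot.mk_eq_mk]
      refine ⟨-(x /ₘ P), ?_⟩
      have := modByMonic_add_div x P
      linear_combination this
    simp only [Prod.mk.injEq] at ht
    obtain ⟨h1, h2, h3⟩ := ht
    refine ⟨e %ₘ P, β %ₘ P, γ %ₘ P, ?_, ?_, ?_, ?_, degree_modByMonic_lt _ hPm,
      degree_modByMonic_lt _ hPm, degree_modByMonic_lt _ hPm⟩
    · intro x hx
      rw [← AdjoinRoot.mk_eq_zero, map_add, map_add, map_mul, map_pow, hmod, hmod] at hx
      exact hr _ hx
    · rw [← AdjoinRoot.mk_eq_zero, map_sub, map_sub, hmod, hmod, h1, sub_self]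
    · rw [← AdjoinRoot.mk_eq_zero, map_sub, map_sub, map_mul, hmod, hmod, hmod, h2, sub_self]
    · rw [← AdjoinRoot.mk_eq_zero, map_add, map_mul, hmod, hmod, h3, neg_add_cancel]

theorem two_ne (h2 : (2 : F) ≠ 0) : (2 : AdjoinRoot P) ≠ 0 := by
  have h1 : (2 : AdjoinRoot P) = algebraMap F (AdjoinRoot P) 2 :=
    (map_ofNat (algebraMap F (AdjoinRoot P)) 2).symm
  rw [h1]
  exact (_root_.map_ne_zero _).2 h2

end Red

/-! ### Irreducibility -/

theorem no_root (n : ℕ) (a b c r : F[X]) (ha : a.natDegree ≤ 2 * n) (hb : b.natDegree ≤ 4 * n)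
    (hc : c.natDegree ≤ 6 * n) (hN : NR (top3 n (a, b, c)))
    (h : r ^ 3 + a * r ^ 2 + b * r + c = 0) : False := by
  have hr := sfi_deg F n a b c r ha hb hc h
  have e1 : (r ^ 3).coeff (6 * n) = r.coeff (2 * n) ^ 3 := by
    have := coeff_pow_of_natDegree_le (m := 3) hr
    rw [show 3 * (2 * n) = 6 * n by ring] at this
    exact this
  have e2' : (r ^ 2).coeff (4 * n) = r.coeff (2 * n) ^ 2 := by
    have := coeff_pow_of_natDegree_le (m := 2) hr
    rw [show 2 * (2 * n) = 4 * n by ring] at this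
    exact this
  have e2 : (a * r ^ 2).coeff (6 * n) = a.coeff (2 * n) * r.coeff (2 * n) ^ 2 := by
    have hr2 : (r ^ 2).natDegree ≤ 4 * n := by
      rw [natDegree_pow]
      omega
    have := coeff_mul_add_eq_of_natDegree_le ha hr2
    rw [show 2 * n + 4 * n = 6 * n by ring, e2'] at this
    exact this
  have e3 : (b * r).coeff (6 * n) = b.coeff (4 * n) * r.coeff (2 * n) := by
    have := coeff_mul_add_eq_of_natDegree_le hb hr
    rw [show 4 * n + 2 * n = 6 * n by ring] at this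
    exact this
  have h0 := congrArg (fun p : F[X] => p.coeff (6 * n)) h
  simp only [coeff_add, coeff_zero] at h0
  rw [e1, e2, e3] at h0
  exact hN (r.coeff (2 * n)) h0

theorem irr_of_nr (hDSC : DSCStmt) (h2 : (2 : F) ≠ 0) (n : ℕ) (f : F[X] × F[X] × F[X])
    (hf : f ∈ Fam F n) (hN : NR (top3 n f)) (hd : disc f.1 f.2.1 f.2.2 ≠ 0) :
    Irreducible (cubK f) ∧ (cubK f).Separable := by
  obtain ⟨a, b, c⟩ := f
  obtain ⟨ha, hb, hc⟩ := hf
  refine ⟨?_, ?_⟩
  · have hm : (cubK (a, b, c)).Monic := by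
      unfold cubK cub
      monicity!
    have hd : (cubK (a, b, c)).natDegree = 3 := by
      unfold cubK cub
      compute_degree!
    rw [irreducible_iff_roots_eq_zero_of_degree_le_three (by omega) (by omega)]
    rw [Multiset.eq_zero_iff_forall_notMem]
    intro x hx
    rw [mem_roots hm.ne_zero, IsRoot.def] at hx
    have hx' : (cubP (a, b, c)).eval₂ (algebraMap F[X] (RatFunc F)) x = 0 := by
      simp only [cubK, cubP, cub, eval_add, eval_mul, eval_pow, eval_X, eval_C, eval₂_add,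
        eval₂_mul, eval₂_pow, eval₂_X, eval₂_C] at hx ⊢
      exact hx
    have hmP : (cubP (a, b, c)).Monic := by
      unfold cubP cub
      monicity!
    obtain ⟨r, hr⟩ := isInteger_of_is_root_of_monic (A := F[X]) (K := RatFunc F) hmP
      (r := x) (by rw [aeval_def]; exact hx')
    rw [← hr, eval₂_at_apply] at hx'
    have hx2 := (map_eq_zero_iff _ (IsFractionRing.injective F[X] (RatFunc F))).1 hx'
    simp only [cubP, cub, eval_add, eval_mul, eval_pow, eval_X, eval_C] at hx2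
    exact no_root n a b c r ha hb hc hN hx2
  · have h2' : (2 : RatFunc F) ≠ 0 := by
      have : (2 : RatFunc F) = algebraMap F (RatFunc F) 2 :=
        (map_ofNat (algebraMap F (RatFunc F)) 2).symm
      rw [this]
      exact (_root_.map_ne_zero _).2 h2
    unfold cubK
    rw [(hDSC (RatFunc F) h2' _ _ _).1, sfi_disc_map]
    exact (map_ne_zero_iff _ (IsFractionRing.injective F[X] (RatFunc F))).2 hd

/-! ### The twists -/

theorem tw_fam' (n : ℕ) (d : F[X]) (f : F[X] × F[X] × F[X]) (hd : d.Monic)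
    (he : Even d.natDegree) (hf : f ∈ Fam F n) :
    tw d f ∈ Fam F (n + d.natDegree / 2) ∧ top3 (n + d.natDegree / 2) (tw d f) = top3 n f := by
  obtain ⟨h1, h2, h3⟩ := hf
  obtain ⟨m, hm⟩ := he
  have hm2 : d.natDegree / 2 = m := by omega
  rw [hm2]
  have p2 : (d ^ 2).natDegree = 2 * d.natDegree := natDegree_pow d 2
  have p3 : (d ^ 3).natDegree = 3 * d.natDegree := natDegree_pow d 3
  refine ⟨⟨?_, ?_, ?_⟩, ?_⟩
  · refine natDegree_mul_le.trans ?_
    omega
  · refine natDegree_mul_le.trans ?_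
    omega
  · refine natDegree_mul_le.trans ?_
    omega
  · have c1 : (d * f.1).coeff (2 * (n + m)) = f.1.coeff (2 * n) := by
      have := coeff_mul_add_eq_of_natDegree_le (le_refl d.natDegree) h1
      rw [hd.coeff_natDegree, one_mul, show d.natDegree + 2 * n = 2 * (n + m) by omega] at this
      exact this
    have c2 : (d ^ 2 * f.2.1).coeff (4 * (n + m)) = f.2.1.coeff (4 * n) := by
      have := coeff_mul_add_eq_of_natDegree_le (le_refl (d ^ 2).natDegree) h2
      rw [(hd.pow 2).coeff_natDegree, one_mul,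
        show (d ^ 2).natDegree + 4 * n = 4 * (n + m) by omega] at this
      exact this
    have c3 : (d ^ 3 * f.2.2).coeff (6 * (n + m)) = f.2.2.coeff (6 * n) := by
      have := coeff_mul_add_eq_of_natDegree_le (le_refl (d ^ 3).natDegree) h3
      rw [(hd.pow 3).coeff_natDegree, one_mul,
        show (d ^ 3).natDegree + 6 * n = 6 * (n + m) by omega] at this
      exact this
    show ((d * f.1).coeff (2 * (n + m)), (d ^ 2 * f.2.1).coeff (4 * (n + m)),
      (d ^ 3 * f.2.2).coeff (6 * (n + m))) = _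
    rw [c1, c2, c3]
    rfl

theorem t12P_tw (P d : F[X]) (hPm : P.Monic) (hP : Irreducible P) (f : F[X] × F[X] × F[X])
    (h : T12P P f) (hd : ¬ P ∣ d) : T12P P (tw d f) := by
  have : Fact (Irreducible P) := ⟨hP⟩
  rw [t12P_iff P hPm] at h ⊢
  have hd' : AdjoinRoot.mk P d ≠ 0 := fun h0 => hd (AdjoinRoot.mk_eq_zero.1 h0)
  have := t12_scale hd' h
  show T12 (AdjoinRoot.mk P (d * f.1), AdjoinRoot.mk P (d ^ 2 * f.2.1),
    AdjoinRoot.mk P (d ^ 3 * f.2.2))
  rw [map_mul, map_mul, map_mul, map_pow, map_pow]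
  exact this

theorem not_t12P_tw (P d : F[X]) (hPm : P.Monic) (hP : Irreducible P)
    (f : F[X] × F[X] × F[X]) (hd : P ∣ d) : ¬ T12P P (tw d f) := by
  have : Fact (Irreducible P) := ⟨hP⟩
  rw [t12P_iff P hPm]
  have hd' : AdjoinRoot.mk P d = 0 := AdjoinRoot.mk_eq_zero.2 hd
  show ¬ T12 (AdjoinRoot.mk P (d * f.1), AdjoinRoot.mk P (d ^ 2 * f.2.1),
    AdjoinRoot.mk P (d ^ 3 * f.2.2))
  rw [map_mul, map_mul, map_mul, map_pow, map_pow, hd', zero_mul, zero_pow (by norm_num),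
    zero_mul, zero_pow (by norm_num), zero_mul]
  exact t12_zero

theorem disc_T (h2 : (2 : F) ≠ 0) (P : F[X]) (hPm : P.Monic) (hP : Irreducible P)
    (f : F[X] × F[X] × F[X]) (h : T12P P f) : ¬ P ∣ disc f.1 f.2.1 f.2.2 := by
  have : Fact (Irreducible P) := ⟨hP⟩
  rw [t12P_iff P hPm] at h
  intro hd
  have h1 := t12_disc (two_ne P h2) h
  rw [sfi_disc_map] at h1
  exact h1 (AdjoinRoot.mk_eq_zero.2 hd)

end TWP

open TWP in
/-- The family and its twists. -/
theorem twp_thm (hDSC : DSCStmt) : TWPStmt := by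
  intro F _ _ h2 n T hT
  have hA : ∀ S ⊆ T, _ := fun S hS => pr_facts T S hT hS
  refine ⟨fun S hS => hA S hS, fun f hf => ?_⟩
  obtain ⟨⟨hfam, hsq, -⟩, hTf, hN⟩ := hf
  have hd0 : disc f.1 f.2.1 f.2.2 ≠ 0 := hsq.ne_zero
  obtain ⟨hirr, hsep⟩ := irr_of_nr hDSC h2 n f hfam hN hd0
  refine ⟨hfam, hN, hirr, hsep, hd0, ?_, ?_, ?_⟩
  · intro P hP hdvd
    rw [pow_two] at hdvd
    exact hP.not_isUnit (hsq P hdvd)
  · intro P hP
    exact disc_T h2 P (hT P hP).1 (hT P hP).2.1 f (hTf P hP)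
  · intro S hS
    obtain ⟨hm, he, hdeg, hsqS, hmem⟩ := hA S hS
    obtain ⟨t1, t2⟩ := tw_fam' n (pr S) f hm he hfam
    have hN' : NR (top3 (n + (pr S).natDegree / 2) (tw (pr S) f)) := by
      rw [t2]
      exact hN
    have hd' : disc (tw (pr S) f).1 (tw (pr S) f).2.1 (tw (pr S) f).2.2 ≠ 0 := by
      rw [disc_tw]
      exact mul_ne_zero (pow_ne_zero _ hm.ne_zero) hd0
    obtain ⟨i1, i2⟩ := irr_of_nr hDSC h2 _ _ t1 hN' hd'
    refine ⟨⟨t1, i1, i2⟩, ⟨t1, hd'⟩, hN', ?_, ?_⟩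
    · intro P hP hPS
      exact t12P_tw P (pr S) (hT P hP).1 (hT P hP).2.1 f (hTf P hP) fun hd =>
        hPS ((hmem P (hT P hP).1 (hT P hP).2.1).1 hd)
    · intro S' hS' f' hf' heq
      obtain ⟨-, hTf', -⟩ := hf'
      obtain ⟨-, -, -, -, hmem'⟩ := hA S' hS'
      have key : ∀ (U V : Finset F[X]) (g g' : F[X] × F[X] × F[X]), U ⊆ T → V ⊆ T →
          (∀ P ∈ T, T12P P g') → tw (pr U) g = tw (pr V) g' → U ⊆ V := by
        intro U V g g' hU hV hg' hgg P hP
        by_contra hPV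
        have hPT := hU hP
        have h1 : T12P P (tw (pr V) g') :=
          t12P_tw P (pr V) (hT P hPT).1 (hT P hPT).2.1 g' (hg' P hPT) fun hd =>
            hPV (((hA V hV).2.2.2.2 P (hT P hPT).1 (hT P hPT).2.1).1 hd)
        rw [← hgg] at h1
        exact not_t12P_tw P (pr U) (hT P hPT).1 (hT P hPT).2.1 g
          (((hA U hU).2.2.2.2 P (hT P hPT).1 (hT P hPT).2.1).2 hP) h1
      have hSS : S = S' := Finset.Subset.antisymm (key S S' f f' hS hS' hTf' heq)
        (key S' S f' f hS' hS hTf heq.symm)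
      refine ⟨hSS, ?_⟩
      rw [← hSS] at heq
      exact tw_inj (pr S) hm.ne_zero heq

end Pool.PRL
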